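import Pool.Agent.X36.TailRatio

/-!
# MP_966169_pr : the tail ratio and the mean

We settle Q2.  (a) The statement fails: for the law with density `(7 + 3x)/10 · e^{-x}` on
`[0, ∞)` one has `R(z) < 2 z / E X` for every `z > 0`.  (b) The follow-up question has a
positive answer: for every admissible law with finite mean there is `z > 0` with
`R(z) ≥ (1/24) z / E X`.
-/

set_option autoImplicit false

open MeasureTheory Set Filter Topology

namespace Pool.Agent.Results.MP_966169_pr.TailRatioMean

open Pool.Agent.X36.TailRatio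

/-! ### The mean of the explicit law -/

theorem mean_integral :
    IntegrableOn (fun x => x * dens x) (Ioi 0) ∧ ∫ x in Ioi 0, x * dens x = 13 / 10 := by
  have hderiv : ∀ x ∈ Ici (0 : ℝ), HasDerivAt
      (fun x : ℝ => -((13 / 10 + 13 / 10 * x + 3 / 10 * x ^ 2) * Real.exp (-x)))
      (x * dens x) x := by
    intro x _
    have h1 : HasDerivAt (fun x : ℝ => 13 / 10 + 13 / 10 * x) (13 / 10) x := by
      have := ((hasDerivAt_id x).const_mul (13 / 10 : ℝ)).const_add (13 / 10)
      simpa using this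
    have h1' : HasDerivAt (fun x : ℝ => 3 / 10 * x ^ 2) (3 / 10 * (2 * x)) x := by
      simpa using (hasDerivAt_pow 2 x).const_mul (3 / 10 : ℝ)
    have h2 : HasDerivAt (fun x : ℝ => Real.exp (-x)) (-Real.exp (-x)) x := by
      have := (hasDerivAt_id x).neg.exp
      simpa using this
    refine ((h1.add h1').mul h2).neg.congr_deriv ?_
    unfold dens
    simp only [Pi.add_apply]
    ring
  have hpos : ∀ x ∈ Ioi (0 : ℝ), 0 ≤ x * dens x := fun x hx =>
    mul_nonneg (le_of_lt hx) (dens_nonneg (le_of_lt hx))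
  have hlim : Tendsto (fun x : ℝ => -((13 / 10 + 13 / 10 * x + 3 / 10 * x ^ 2) * Real.exp (-x)))
      atTop (𝓝 0) := by
    have h1 := Real.tendsto_pow_mul_exp_neg_atTop_nhds_zero 0
    have h2 := Real.tendsto_pow_mul_exp_neg_atTop_nhds_zero 1
    have h4 := Real.tendsto_pow_mul_exp_neg_atTop_nhds_zero 2
    have h3 := (((h1.const_mul (13 / 10 : ℝ)).add (h2.const_mul (13 / 10 : ℝ))).add
      (h4.const_mul (3 / 10 : ℝ))).neg
    simp only [mul_zero, add_zero, neg_zero] at h3
    refine h3.congr fun x => ?_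
    ring
  refine ⟨integrableOn_Ioi_deriv_of_nonneg' hderiv hpos hlim, ?_⟩
  rw [integral_Ioi_of_hasDerivAt_of_nonneg' hderiv hpos hlim]
  simp

theorem law_mean : Integrable (fun x : ℝ => x) law ∧ ∫ x, x ∂law = 13 / 10 := by
  obtain ⟨h1, h2⟩ := mean_integral
  have hfin : ∀ᵐ x ∂(volume.restrict (Ici (0 : ℝ))), ENNReal.ofReal (dens x) < ⊤ :=
    Eventually.of_forall fun x => ENNReal.ofReal_lt_top
  have hcongr : (fun x : ℝ => (ENNReal.ofReal (dens x)).toReal • x)
      =ᵐ[volume.restrict (Ici 0)] fun x => x * dens x := by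
    rw [Filter.EventuallyEq, ae_restrict_iff' measurableSet_Ici]
    refine Eventually.of_forall fun x hx => ?_
    rw [ENNReal.toReal_ofReal (dens_nonneg hx), smul_eq_mul, mul_comm]
  constructor
  · rw [law, integrable_withDensity_iff_integrable_smul' measurable_dens hfin,
      integrable_congr hcongr]
    exact (integrableOn_Ici_iff_integrableOn_Ioi).mpr h1
  · rw [law, integral_withDensity_eq_integral_toReal_smul measurable_dens hfin,
      integral_congr_ae hcongr, integral_Ici_eq_integral_Ioi, h2]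

/-! ### Mean and median -/

theorem markov {μ : Measure ℝ} (h : IsLaw μ) (hi : Integrable (fun x : ℝ => x) μ) (t : ℝ) :
    t * G μ t ≤ ∫ x, x ∂μ := by
  have h0 : 0 ≤ᵐ[μ] fun x : ℝ => x := by
    rw [Filter.EventuallyLE, ae_iff]
    convert h.nonneg using 2
    ext x
    simp
  exact mul_meas_ge_le_integral_of_nonneg h0 hi t

theorem exists_median' {μ : Measure ℝ} (h : IsLaw μ) (hi : Integrable (fun x : ℝ => x) μ) :
    ∃ m, IsMedian μ m := by
  have := h.prob
  have h0 : 0 ≤ ∫ x, x ∂μ := by
    have := markov h hi 0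
    linarith
  set E := ∫ x, x ∂μ with hE
  have h1 : G μ (2 * E + 1) ≤ 1 / 2 := by
    have h2 := markov h hi (2 * E + 1)
    rw [← hE] at h2
    by_contra hlt
    push Not at hlt
    nlinarith
  have h2 : (1 / 2 : ℝ) ≤ G μ 0 := by
    rw [G_zero h]
    norm_num
  obtain ⟨m, hm, hm2⟩ := intermediate_value_Icc' (by linarith : (0 : ℝ) ≤ 2 * E + 1)
    (G_continuous h).continuousOn ⟨h1, h2⟩
  refine ⟨m, hm.1, ?_⟩
  have h3 := G_compl h m
  rw [hm2] at h3
  have h4 : (μ (Iic m)).toReal = 1 / 2 := by linarith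
  rw [← ENNReal.ofReal_toReal (measure_ne_top μ (Iic m)), h4,
    ENNReal.ofReal_div_of_pos (by norm_num)]
  simp

/-- Q2.  (a) The inequality with the constant `2` fails for some admissible law with finite mean.
(b) With the constant `1/24` it holds for all admissible laws with finite mean. -/
theorem result :
    (∃ μ : Measure ℝ, IsLaw μ ∧ Integrable (fun x : ℝ => x) μ ∧
      ∀ z : ℝ, 0 < z → R μ z < 2 * z / ∫ x, x ∂μ) ∧
    (∀ μ : Measure ℝ, IsLaw μ → Integrable (fun x : ℝ => x) μ →
      ∃ z : ℝ, 0 < z ∧ 1 / 24 * z / ∫ x, x ∂μ ≤ R μ z) := by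
  constructor
  · refine ⟨law, law_isLaw, law_mean.1, fun z hz => ?_⟩
    rw [law_mean.2]
    refine (R_le hz).trans_lt ?_
    rw [lt_div_iff₀ (by norm_num)]
    linarith
  · intro μ hμ hi
    obtain ⟨m, hm⟩ := exists_median' hμ hi
    obtain ⟨z, hz, hz2⟩ := part_b hμ hm
    have hm0 := median_pos hμ hm
    have h1 := markov hμ hi m
    rw [G_median hμ hm] at h1
    refine ⟨z, hz, le_trans ?_ hz2⟩
    have hE : 0 < ∫ x, x ∂μ := by linarith
    rw [div_le_div_iff₀ hE hm0]
    nlinarith

end Pool.Agent.Results.MP_966169_pr.TailRatioMean
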