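import Pool.Agent.X36.TailRatio

/-!
# MP_966169_pr : the tail ratio and the median

We settle Q1.  (a) The statement fails: for the law with density `(7 + 3x)/10 · e^{-x}` on
`[0, ∞)` one has `R(z) < (2 log 2) z / med` for every `z > 0`.  (b) The follow-up question has a
positive answer: for every admissible law and every median `m` there is `z > 0` with
`R(z) ≥ (1/12) z / m`.
-/

set_option autoImplicit false

open MeasureTheory Set Filter Topology

namespace Pool.Agent.Results.MP_966169_pr.TailRatioMedian

open Pool.Agent.X36.TailRatio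

/-- Q1.  (a) The inequality with the constant `2 log 2` fails for some admissible law, whatever
median is used.  (b) With the constant `1/12` it holds for all admissible laws. -/
theorem result :
    (∃ μ : Measure ℝ, IsLaw μ ∧ (∃ m, IsMedian μ m) ∧
      ∀ m, IsMedian μ m → ∀ z : ℝ, 0 < z → R μ z < 2 * Real.log 2 * z / m) ∧
    (∀ μ : Measure ℝ, IsLaw μ → ∀ m, IsMedian μ m → ∃ z : ℝ, 0 < z ∧ 1 / 12 * z / m ≤ R μ z) := by
  refine ⟨⟨law, law_isLaw, exists_median, fun m hm z hz => ?_⟩, fun μ hμ m hm => part_b hμ hm⟩
  have := law_isLaw.prob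
  have hm1 := median_le hm
  have hm0 : 0 < m := median_pos law_isLaw hm
  refine (R_le hz).trans_lt ?_
  rw [lt_div_iff₀ hm0]
  have hlog := Real.log_two_gt_d9
  nlinarith [mul_le_mul_of_nonneg_left hm1 hz.le]

end Pool.Agent.Results.MP_966169_pr.TailRatioMedian
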